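import Pool.Agent.Lib.MP_1a91b9_nuX.DB.VT
import Pool.Agent.Lib.MP_1a91b9_nuX.DB.Pd
import Pool.Agent.Lib.MP_1a91b9_nuX.HD

/-!
# The conjugation of `𝓞 K` and the prime element `ϖ`: see `nuT/Nrm.lean` and `nuX/DB/Pd.lean`
-/

set_option autoImplicit false

namespace Pool.Agent.Lib.MP_1a91b9_nuX.DX

export Pool.Agent.Lib.MP_1a91b9_nuT (cj cj_coords cj_cj mul_cj cj_dvd_iff absNorm_cj)

end Pool.Agent.Lib.MP_1a91b9_nuX.DX
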