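import Pool.Agent.Lib.MP_1a91b9_nuX.DB.Pd

/-!
# DX: existence of the prime element above every prime number `ℓ` which does not divide the bad
integer: `DX.exists_pd` in `nuX/DB/Pd.lean`
-/
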