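import Pool.Agent.Lib.MP_1a91b9_nuX.DB.ValB

/-!
# The local parameter of a difference, `y² = x³ + A x + B`

In the kernel of reduction, `v (t (A - B)) = v (t A - t B)`: the line through `A` and `-B` in the coordinates
`t = -x/y`, `w = -1/y`, where the curve is `w = t³ + A t w² + B w³`.
-/

set_option autoImplicit false

namespace Pool.Agent.Lib.MP_1a91b9_nuX.DX

open NumberField IsDedekindDomain WeierstrassCurve Pool.Agent.Lib.MP_1a91b9_nuT
open Pool.Agent.Lib.MP_1a91b9_nuX.DB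

/-- the valuations of the numerator and the denominator of the slope -/
private theorem SatA_key {F : Type*} [Field F] {Γ : Type*} [LinearOrderedCommGroupWithZero Γ]
    (v : Valuation F Γ) (a b : F) (hva : v a ≤ 1) (hvb : v b ≤ 1) (h2 : v (2 : F) = 1)
    {t1 t2 w1 w2 : F} {r : Γ} (hr0 : 0 < r)
    (hr1 : r < 1) (ht1 : v t1 = r) (ht2 : v t2 = r) (hw1 : v w1 = r ^ 3) (hw2 : v w2 = r ^ 3)
    (e1 : w1 = t1 ^ 3 + a * t1 * w1 ^ 2 + b * w1 ^ 3)
    (e2 : w2 = t2 ^ 3 + a * t2 * w2 ^ 2 + b * w2 ^ 3) (hd : v (t1 - t2) < r) :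
    v (t1 * w2 - t2 * w1) = v (t1 - t2) * r ^ 3 ∧ v (w1 + w2) = r ^ 3 := by
  have hr3 : (0 : Γ) < r ^ 3 := pow_pos hr0 3
  have hr31 : r ^ 3 < 1 := pow_lt_one₀ hr0.le hr1 (by norm_num)
  have hr21 : r ^ 2 < 1 := pow_lt_one₀ hr0.le hr1 (by norm_num)
  have hsa : ∀ x : F, v x < 1 → v (a * x) < 1 := by
    intro x hx
    rw [map_mul]
    exact mul_lt_one_of_nonneg_of_lt_one_right hva zero_le hx
  have hsb : ∀ x : F, v x < 1 → v (b * x) < 1 := by
    intro x hx
    rw [map_mul]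
    exact mul_lt_one_of_nonneg_of_lt_one_right hvb zero_le hx
  have hww : ∀ x y : F, v x = r ^ 3 → v y = r ^ 3 → v (x * y) < 1 := by
    intro x y hx hy
    rw [map_mul, hx, hy]
    exact mul_lt_one_of_nonneg_of_lt_one_right hr31.le zero_le hr31
  have htw : ∀ x y : F, v x = r → v y = r ^ 3 → v (x * y) < 1 := by
    intro x y hx hy
    rw [map_mul, hx, hy]
    exact mul_lt_one_of_nonneg_of_lt_one_right hr1.le zero_le hr31
  have hu1 : v (1 - (a * (t1 * w1) + b * (w1 * w1))) = 1 :=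
    v.map_one_sub_of_lt (v.map_add_lt (hsa _ (htw _ _ ht1 hw1)) (hsb _ (hww _ _ hw1 hw1)))
  have hu2 : v (1 - (a * (t2 * w2) + b * (w2 * w2))) = 1 :=
    v.map_one_sub_of_lt (v.map_add_lt (hsa _ (htw _ _ ht2 hw2)) (hsb _ (hww _ _ hw2 hw2)))
  have hplus : v (t1 + t2) = r := by
    have e : t1 + t2 = 2 * t1 - (t1 - t2) := by ring
    have h3 : v (2 * t1) = r := by rw [map_mul, h2, one_mul, ht1]
    rw [e, v.map_sub_eq_of_lt_left (by rw [h3]; exact hd), h3]
  -- the difference of the second coordinates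
  have hdw : v (w1 - w2) ≤ v (t1 - t2) * r ^ 2 := by
    have hq : v (a * (t2 * (w1 + w2)) + b * (w1 ^ 2 + w1 * w2 + w2 ^ 2)) < 1 := by
      refine v.map_add_lt (hsa _ ?_) (hsb _ ?_)
      · have e : t2 * (w1 + w2) = t2 * w1 + t2 * w2 := by ring
        rw [e]
        exact v.map_add_lt (htw _ _ ht2 hw1) (htw _ _ ht2 hw2)
      · refine v.map_add_lt (v.map_add_lt ?_ ?_) ?_
        · rw [pow_two]
          exact hww _ _ hw1 hw1
        · exact hww _ _ hw1 hw2
        · rw [pow_two]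
          exact hww _ _ hw2 hw2
    have hu : v (1 - (a * (t2 * (w1 + w2)) + b * (w1 ^ 2 + w1 * w2 + w2 ^ 2))) = 1 :=
      v.map_one_sub_of_lt hq
    have hid : (w1 - w2) * (1 - (a * (t2 * (w1 + w2)) + b * (w1 ^ 2 + w1 * w2 + w2 ^ 2))) =
        (t1 - t2) * (t1 ^ 2 + t1 * t2 + t2 ^ 2 + a * w1 ^ 2) := by
      linear_combination e1 - e2
    have h3 : v (t1 ^ 2 + t1 * t2 + t2 ^ 2 + a * w1 ^ 2) ≤ r ^ 2 := by
      refine v.map_add_le (v.map_add_le (v.map_add_le ?_ ?_) ?_) ?_
      · rw [map_pow, ht1]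
      · rw [map_mul, ht1, ht2, pow_two]
      · rw [map_pow, ht2]
      · rw [map_mul, map_pow, hw1, ← pow_mul]
        calc v a * r ^ (3 * 2) ≤ 1 * r ^ (3 * 2) := mul_le_mul_left hva _
          _ = r ^ 6 := one_mul _
          _ ≤ r ^ 2 := pow_le_pow_right_of_le_one' hr1.le (by norm_num)
    have h4 := congrArg v hid
    rw [map_mul, hu, mul_one, map_mul] at h4
    rw [h4]
    exact mul_le_mul_right h3 _
  constructor
  · -- the denominator
    have hid : (t1 * w2 - t2 * w1) * ((1 - (a * (t1 * w1) + b * (w1 * w1))) *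
        (1 - (a * (t2 * w2) + b * (w2 * w2)))) =
        t1 * t2 * (-((t1 - t2) * (t1 + t2) * (1 - (a * (t1 * w1) + b * (w1 * w1)))) -
          t1 ^ 2 * (a * ((t1 - t2) * w1 + t2 * (w1 - w2)) + b * ((w1 - w2) * (w1 + w2)))) := by
      linear_combination (t1 * (1 - (a * (t1 * w1) + b * (w1 * w1)))) * e2 -
        (t2 * (1 - (a * (t2 * w2) + b * (w2 * w2)))) * e1
    have hs : v ((t1 - t2) * (t1 + t2) * (1 - (a * (t1 * w1) + b * (w1 * w1)))) =
        v (t1 - t2) * r := by
      rw [map_mul, hu1, mul_one, map_mul, hplus]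
    have hww1 : v (w1 + w2) ≤ r ^ 3 := v.map_add_le hw1.le hw2.le
    have hs2 : v (t1 ^ 2 * (a * ((t1 - t2) * w1 + t2 * (w1 - w2)) + b * ((w1 - w2) * (w1 + w2)))) ≤
        v (t1 - t2) * r ^ 5 := by
      have k1 : v ((t1 - t2) * w1 + t2 * (w1 - w2)) ≤ v (t1 - t2) * r ^ 3 := by
        refine v.map_add_le ?_ ?_
        · rw [map_mul, hw1]
        · rw [map_mul, ht2]
          calc r * v (w1 - w2) ≤ r * (v (t1 - t2) * r ^ 2) := mul_le_mul_right hdw _
            _ = v (t1 - t2) * r ^ 3 := by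
              rw [mul_left_comm, ← pow_succ']
      have k2 : v ((w1 - w2) * (w1 + w2)) ≤ v (t1 - t2) * r ^ 3 := by
        rw [map_mul]
        calc v (w1 - w2) * v (w1 + w2) ≤ (v (t1 - t2) * r ^ 2) * r ^ 3 := mul_le_mul' hdw hww1
          _ = v (t1 - t2) * r ^ 5 := by rw [mul_assoc, ← pow_add]
          _ ≤ v (t1 - t2) * r ^ 3 :=
            mul_le_mul_right (pow_le_pow_right_of_le_one' hr1.le (by norm_num)) _
      have k3 : v (a * ((t1 - t2) * w1 + t2 * (w1 - w2)) + b * ((w1 - w2) * (w1 + w2))) ≤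
          v (t1 - t2) * r ^ 3 := by
        refine v.map_add_le ?_ ?_
        · rw [map_mul]
          exact mul_le_of_le_one_of_le hva k1
        · rw [map_mul]
          exact mul_le_of_le_one_of_le hvb k2
      rw [map_mul, map_pow, ht1]
      calc r ^ 2 * v (a * ((t1 - t2) * w1 + t2 * (w1 - w2)) + b * ((w1 - w2) * (w1 + w2))) ≤
          r ^ 2 * (v (t1 - t2) * r ^ 3) := mul_le_mul_right k3 _
        _ = v (t1 - t2) * r ^ 5 := by rw [mul_left_comm, ← pow_add]
    have hmain : v (-((t1 - t2) * (t1 + t2) * (1 - (a * (t1 * w1) + b * (w1 * w1)))) -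
        t1 ^ 2 * (a * ((t1 - t2) * w1 + t2 * (w1 - w2)) + b * ((w1 - w2) * (w1 + w2)))) =
        v (t1 - t2) * r := by
      by_cases h0 : v (t1 - t2) = 0
      · rw [h0, zero_mul] at hs hs2 ⊢
        have h7 : (t1 - t2) * (t1 + t2) * (1 - (a * (t1 * w1) + b * (w1 * w1))) = 0 :=
          (v.zero_iff).1 hs
        have h8 : t1 ^ 2 * (a * ((t1 - t2) * w1 + t2 * (w1 - w2)) +
            b * ((w1 - w2) * (w1 + w2))) = 0 := (v.zero_iff).1 (le_antisymm hs2 zero_le)
        rw [h7, h8, neg_zero, sub_zero, map_zero]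
      · have hlt : v (t1 - t2) * r ^ 5 < v (t1 - t2) * r := by
          refine mul_lt_mul_of_pos_left ?_ (zero_lt_iff.2 h0)
          calc r ^ 5 = r * r ^ 4 := pow_succ' r 4
            _ < r * 1 := mul_lt_mul_of_pos_left (pow_lt_one₀ hr0.le hr1 (by norm_num)) hr0
            _ = r := mul_one r
        have h9 : v (-((t1 - t2) * (t1 + t2) * (1 - (a * (t1 * w1) + b * (w1 * w1))))) =
            v (t1 - t2) * r := by rw [v.map_neg, hs]
        rw [v.map_sub_eq_of_lt_left (by rw [h9]; exact lt_of_le_of_lt hs2 hlt), h9]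
    have h10 := congrArg v hid
    rw [map_mul, map_mul, hu1, hu2, one_mul, mul_one, map_mul, map_mul, ht1, ht2, hmain] at h10
    rw [h10, mul_left_comm, ← pow_two, ← pow_succ]
  · have h5 : v (w1 - w2) < r ^ 3 := by
      calc v (w1 - w2) ≤ v (t1 - t2) * r ^ 2 := hdw
        _ < r * r ^ 2 := mul_lt_mul_of_pos_right hd (pow_pos hr0 2)
        _ = r ^ 3 := (pow_succ' r 2).symm
    have e : w1 + w2 = 2 * w1 - (w1 - w2) := by ring
    have h6 : v (2 * w1) = r ^ 3 := by rw [map_mul, h2, one_mul, hw1]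
    rw [e, v.map_sub_eq_of_lt_left (by rw [h6]; exact h5), h6]

variable [CD]

section
variable {F : Type*} [Field F] [Algebra K F] [DecidableEq F] {Γ : Type*}
  [LinearOrderedCommGroupWithZero Γ] (v : Valuation F Γ)

/-- the abscissa of a difference -/
private theorem SatA_xc {A B : Pt F} (hA : A ≠ 0) (hB : B ≠ 0) (hx : xc A ≠ xc B) :
    A - B ≠ 0 ∧ xc (A - B) = ((yc A + yc B) / (xc A - xc B)) ^ 2 - xc A - xc B := by
  obtain ⟨h1, e1⟩ := exists_mk hA
  obtain ⟨h2, e2⟩ := exists_mk hB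
  have h2' : (-yc B) ^ 2 = xc B ^ 3 + cA F * xc B + cB F := by linear_combination h2
  have hneg : -B = mkPt (xc B) (-yc B) h2' := by
    conv_lhs => rw [e2]
    exact neg_mk _ _ h2
  obtain ⟨h, e⟩ := mk_add (xc A) (yc A) (xc B) (-yc B) h1 h2' hx
  have hAB : A - B = mkPt (xc A) (yc A) h1 + mkPt (xc B) (-yc B) h2' := by
    rw [← e1, ← hneg, sub_eq_add_neg]
  rw [hAB, e]
  refine ⟨mk_ne_zero _ _ _, ?_⟩
  rw [xc_mk]
  have : yc A - (-yc B) = yc A + yc B := by ring
  rw [this]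

omit [DecidableEq F] in
private theorem SatA_negtc (B : Pt F) : tc (-B) = -tc B := by
  rcases cases_pt B with rfl | ⟨x, y, h, rfl⟩
  · have h1 : -(0 : Pt F) = 0 := Affine.Point.neg_zero
    rw [h1, tc_zero, neg_zero]
  · rw [neg_mk, tc, tc, xc_mk, xc_mk, yc_mk, yc_mk, div_neg]

/-- the local parameter of a difference in the kernel of reduction -/
theorem tc_sub (h2 : v (2 : F) = 1) {A B : Pt F} (hA : Ker v A) (hB : Ker v B) :
    v (tc (A - B)) = v (tc A - tc B) := by
  by_cases hAB : A = B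
  · rw [hAB, sub_self, sub_self, tc_zero]
  by_cases hA0 : A = 0
  · rw [hA0, zero_sub, tc_zero, zero_sub, SatA_negtc]
  by_cases hB0 : B = 0
  · rw [hB0, sub_zero, tc_zero, sub_zero]
  obtain ⟨a1, a2, a3⟩ := ker_w v hA hA0
  obtain ⟨b1, b2, b3⟩ := ker_w v hB hB0
  obtain ⟨ka1, ka2, ka3, ka4⟩ := ker_tc v hA hA0
  obtain ⟨kb1, kb2, kb3, kb4⟩ := ker_tc v hB hB0
  have n1 := SatA_negtc B
  set r : Γ := max (v (tc A)) (v (tc B)) with hr
  have hr1 : r < 1 := max_lt ka1 kb1
  have hr0 : 0 < r := lt_of_lt_of_le (zero_lt_iff.2 ka2) (le_max_left _ _)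
  have hr4 : r ^ 4 < r := by
    calc r ^ 4 = r * r ^ 3 := pow_succ' r 3
      _ < r * 1 := mul_lt_mul_of_pos_left (pow_lt_one₀ hr0.le hr1 (by norm_num)) hr0
      _ = r := mul_one r
  have hle : v (tc A - tc B) ≤ r := v.map_sub _ _
  rcases hle.eq_or_lt with hd | hd
  · have e1 := (ker_add v hA (ker_neg v hB)).2
    rw [n1, v.map_neg, ← hr, ← sub_eq_add_neg] at e1
    have e3 : v (tc (A - B) - (tc A - tc B)) ≤ r ^ 4 := by
      have : tc (A - B) - (tc A - tc B) = tc (A - B) - tc A - -tc B := by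
        ring
      rw [this]
      exact e1
    exact v.map_eq_of_sub_lt (lt_of_le_of_lt e3 (hr4.trans_eq hd.symm))
  · have hvt1 : v (tc A) = r := by
      rcases lt_trichotomy (v (tc A)) (v (tc B)) with h | h | h
      · exfalso
        have h7 : v (tc A - tc B) = v (tc B) := v.map_sub_eq_of_lt_right h
        rw [h7, hr, max_eq_right h.le] at hd
        exact lt_irrefl _ hd
      · rw [hr, ← h, max_self]
      · rw [hr, max_eq_left h.le]
    have hvt2 : v (tc B) = r := by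
      rcases lt_trichotomy (v (tc A)) (v (tc B)) with h | h | h
      · rw [hr, max_eq_right h.le]
      · rw [hr, h, max_self]
      · exfalso
        have h7 : v (tc A - tc B) = v (tc A) := v.map_sub_eq_of_lt_left h
        rw [h7, hr, max_eq_left h.le] at hd
        exact lt_irrefl _ hd
    have hvw1 : v (-1 / yc A) = r ^ 3 := by rw [a2, hvt1]
    have hvw2 : v (-1 / yc B) = r ^ 3 := by rw [b2, hvt2]
    obtain ⟨k1, k2⟩ := SatA_key v (cA F) (cB F) (v_cA_le v) (v_cB_le v) h2 hr0 hr1 hvt1 hvt2 hvw1 hvw2 a1 b1 hd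
    have hr30 : r ^ 3 ≠ 0 := (pow_pos hr0 3).ne'
    set w1 := -1 / yc A with hw1
    set w2 := -1 / yc B with hw2
    have hw10 : w1 ≠ 0 := by
      intro h
      rw [h, map_zero] at hvw1
      exact hr30 hvw1.symm
    have hw20 : w2 ≠ 0 := by
      intro h
      rw [h, map_zero] at hvw2
      exact hr30 hvw2.symm
    have hyA0 : yc A ≠ 0 := by
      intro h
      rw [hw1, h, div_zero] at hw10
      exact hw10 rfl
    have hyB0 : yc B ≠ 0 := by
      intro h
      rw [hw2, h, div_zero] at hw20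
      exact hw20 rfl
    have hyA : yc A = -1 / w1 := by rw [hw1]; field_simp
    have hyB : yc B = -1 / w2 := by rw [hw2]; field_simp
    have hd0 : v (tc A - tc B) ≠ 0 := by
      intro h
      rw [h, zero_mul] at k1
      have h8 : tc A - tc B = 0 := (v.zero_iff).1 h
      have h9 : tc A * w2 - tc B * w1 = 0 := (v.zero_iff).1 k1
      have h10 : tc A = tc B := sub_eq_zero.1 h8
      have htA : tc A ≠ 0 := fun h => ka2 (by rw [h, map_zero])
      have h11 : w1 = w2 := by
        have : tc A * (w2 - w1) = 0 := by rw [← h10] at h9; linear_combination h9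
        rcases mul_eq_zero.1 this with h | h
        · exact absurd h htA
        · exact (sub_eq_zero.1 h).symm
      exact hAB (pt_ext hA0 hB0 (by rw [a3, b3, h10, h11]) (by rw [hyA, hyB, h11]))
    have hs0 : tc A * w2 - tc B * w1 ≠ 0 := by
      intro h
      rw [h, map_zero] at k1
      exact mul_ne_zero hd0 hr30 k1.symm
    have hxd : xc A - xc B = (tc A * w2 - tc B * w1) / (w1 * w2) := by
      rw [a3, b3]
      field_simp
    have hxne : xc A ≠ xc B := by
      intro h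
      rw [h, sub_self] at hxd
      exact (div_ne_zero hs0 (mul_ne_zero hw10 hw20)) hxd.symm
    obtain ⟨hne, hX⟩ := SatA_xc hA0 hB0 hxne
    have hm : (yc A + yc B) / (xc A - xc B) =
        -((w1 + w2) / (tc A * w2 - tc B * w1)) := by
      rw [hxd, hyA, hyB]
      field_simp
      ring
    have hvm : v ((yc A + yc B) / (xc A - xc B)) = (v (tc A - tc B))⁻¹ := by
      rw [hm, v.map_neg, map_div₀, k1, k2]
      rw [mul_comm, div_mul_eq_div_div, div_self hr30, one_div]
    have hvx : ∀ P : Pt F, v (tc P) = r → v (xc P) * v (tc P) ^ 2 = 1 → v (xc P) = (r ^ 2)⁻¹ := by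
      intro P hP h
      rw [hP] at h
      exact eq_inv_of_mul_eq_one_left h
    have hxA := hvx A hvt1 ka3
    have hxB := hvx B hvt2 kb3
    have hlt : (r ^ 2)⁻¹ < v (((yc A + yc B) / (xc A - xc B)) ^ 2) := by
      rw [map_pow, hvm, ← inv_pow]
      apply pow_lt_pow_left₀ _ zero_le (by norm_num)
      exact inv_strictAnti₀ (zero_lt_iff.2 hd0) hd
    have hvX : v (xc (A - B)) = ((v (tc A - tc B))⁻¹) ^ 2 := by
      have h12 : v (((yc A + yc B) / (xc A - xc B)) ^ 2 - xc A) =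
          v (((yc A + yc B) / (xc A - xc B)) ^ 2) :=
        v.map_sub_eq_of_lt_left (by rw [hxA]; exact hlt)
      rw [hX, v.map_sub_eq_of_lt_left (by rw [h12, hxB]; exact hlt), h12, map_pow, hvm]
    have hK : Ker v (A - B) := ker_sub v hA hB
    have h13 := (ker_tc v hK hne).2.2.1
    rw [hvX] at h13
    have h14 : v (tc (A - B)) ^ 2 = v (tc A - tc B) ^ 2 := by
      have h15 : v (tc A - tc B) ^ 2 ≠ 0 := pow_ne_zero 2 hd0
      rw [inv_pow] at h13
      have := eq_inv_of_mul_eq_one_right h13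
      rw [this, inv_inv]
    exact (pow_left_inj₀ zero_le zero_le (by norm_num)).1 h14

end

end Pool.Agent.Lib.MP_1a91b9_nuX.DX
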