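import Pool.Agent.Lib.MP_1a91b9_nuX.DX.SatA
import Pool.Agent.Lib.MP_1a91b9_nuX.DB.KerS
import Pool.Agent.Lib.MP_1a91b9_nuX.DB.ValC
import Pool.Agent.Lib.MP_1a91b9_nuX.DB.Free

/-!
# DX: the local parameter of a difference, saturation of the kernel of reduction

Saturation of the kernel of reduction at the places of a number field.
-/

set_option autoImplicit false

namespace Pool.Agent.Lib.MP_1a91b9_nuX.DX

variable [Pool.Agent.Lib.MP_1a91b9_nuT.CD]

open NumberField IsDedekindDomain WeierstrassCurve Pool.Agent.Lib.MP_1a91b9_nuT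
open Pool.Agent.Lib.MP_1a91b9_nuX.DB

universe u

section
variable {F : Type u} [Field F] [NumberField F] [Algebra K F] [DecidableEq F]

theorem ker_sat {β : 𝓞 K} (hβ : Prime β)
    (v : HeightOneSpectrum (𝓞 F)) (hv : v.valuation F (algebraMap K F (β : K)) < 1)
    (hb : v.valuation F (bD F) = 1) {Q : Pt F}
    (hQ : Ker (v.valuation F) (sm F β Q)) : Ker (v.valuation F) Q :=
  ker_of_sm (v.valuation F) hβ hv hb hQ

end

section
variable {F : Type u} [Field F] [NumberField F] [Algebra K F] [DecidableEq F]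

theorem exists_nsmul_ker (v : HeightOneSpectrum (𝓞 F)) (h3 : v.valuation F (bD F) = 1)
    (P : Pt F) : ∃ n : ℕ, 0 < n ∧ Ker (v.valuation F) (n • P) := by
  by_contra hcon
  push Not at hcon
  have hfin : Finite (𝓞 F ⧸ v.asIdeal) := Ideal.finiteQuotientOfFreeOfNeBot _ v.ne_bot
  have hexp : WithZero.exp (-((1 : ℕ) : ℤ)) < (1 : WithZero (Multiplicative ℤ)) := by
    rw [← WithZero.exp_zero, WithZero.exp_lt_exp]
    norm_num
  have hX : ∀ n : ℕ, ∃ x : 𝓞 F, v.valuation F (xc ((n + 1) • P) - (x : F)) < 1 := by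
    intro n
    obtain ⟨x, hx⟩ := exists_val_lt_of_int v (not_ker _ (hcon (n + 1) n.succ_pos)).2.1 1
    exact ⟨x, lt_of_le_of_lt hx hexp⟩
  have hY : ∀ n : ℕ, ∃ x : 𝓞 F, v.valuation F (yc ((n + 1) • P) - (x : F)) < 1 := by
    intro n
    obtain ⟨x, hx⟩ := exists_val_lt_of_int v (not_ker _ (hcon (n + 1) n.succ_pos)).2.2 1
    exact ⟨x, lt_of_le_of_lt hx hexp⟩
  choose X hX using hX
  choose Y hY using hY
  obtain ⟨i, j, hij, he⟩ := Finite.exists_ne_map_eq_of_infinite
    (fun n : ℕ => (Ideal.Quotient.mk v.asIdeal (X n), Ideal.Quotient.mk v.asIdeal (Y n)))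
  have key : ∀ i j : ℕ, i < j → Ideal.Quotient.mk v.asIdeal (X i) =
      Ideal.Quotient.mk v.asIdeal (X j) → Ideal.Quotient.mk v.asIdeal (Y i) =
      Ideal.Quotient.mk v.asIdeal (Y j) → False := by
    intro i j hij h1 h2
    have h1' : v.valuation F ((X i : F) - (X j : F)) < 1 := by
      have := (v.valuation_lt_one_iff_mem (K := F) (X i - X j)).2 (Ideal.Quotient.eq.1 h1)
      simpa using this
    have h2' : v.valuation F ((Y i : F) - (Y j : F)) < 1 := by
      have := (v.valuation_lt_one_iff_mem (K := F) (Y i - Y j)).2 (Ideal.Quotient.eq.1 h2)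
      simpa using this
    have h4 : v.valuation F (xc ((i + 1) • P) - xc ((j + 1) • P)) < 1 := by
      have e : xc ((i + 1) • P) - xc ((j + 1) • P) = (xc ((i + 1) • P) - (X i : F)) +
          ((X i : F) - (X j : F)) - (xc ((j + 1) • P) - (X j : F)) := by ring
      rw [e]
      exact (v.valuation F).map_sub_lt ((v.valuation F).map_add_lt (hX i) h1') (hX j)
    have h5 : v.valuation F (yc ((i + 1) • P) - yc ((j + 1) • P)) < 1 := by
      have e : yc ((i + 1) • P) - yc ((j + 1) • P) = (yc ((i + 1) • P) - (Y i : F)) +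
          ((Y i : F) - (Y j : F)) - (yc ((j + 1) • P) - (Y j : F)) := by ring
      rw [e]
      exact (v.valuation F).map_sub_lt ((v.valuation F).map_add_lt (hY i) h2') (hY j)
    have h6 := red_inj (v.valuation F) h3 (hcon (i + 1) i.succ_pos) (hcon (j + 1) j.succ_pos) h4 h5
    have h7 := ker_neg _ h6
    have h8 : -((i + 1) • P - (j + 1) • P) = (j - i) • P := by
      obtain ⟨d, rfl⟩ := Nat.exists_eq_add_of_lt hij
      have e2 : i + d + 1 + 1 = (d + 1) + (i + 1) := by ring
      have e3 : i + d + 1 - i = d + 1 := by omega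
      rw [e3, neg_sub, sub_eq_iff_eq_add, e2, add_nsmul]
    rw [h8] at h7
    exact hcon (j - i) (Nat.sub_pos_of_lt hij) h7
  have he1 := congrArg Prod.fst he
  have he2 := congrArg Prod.snd he
  rcases lt_or_gt_of_ne hij with h | h
  · exact key i j h he1 he2
  · exact key j i h he1.symm he2.symm


end

end Pool.Agent.Lib.MP_1a91b9_nuX.DX
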