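import Pool.Agent.Lib.MP_1a91b9_nuX.DX.Lev
import Pool.Agent.Lib.MP_1a91b9_nuX.DX.Triv
import Pool.Agent.Lib.MP_1a91b9_nuX.DX.Ex
import Pool.Agent.Lib.MP_17a322_nt.VJ.MW4
import Pool.Agent.Lib.MP_1a91b9_nuX.DB.VT

/-!
# DX: the top: `V(F) = 0` implies that `E(F)` is finite

Port of MP_1a91b9_nuT/DX/Top.lean to the curves `y² = x³ + D`.
-/

set_option autoImplicit false

namespace Pool.Agent.Lib.MP_1a91b9_nuX.DX

variable [Pool.Agent.Lib.MP_1a91b9_nuT.CD]

open NumberField IsDedekindDomain WeierstrassCurve Pool.Agent.Lib.MP_1a91b9_nuT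
open Pool.Agent.Lib.MP_1a91b9_nuX.DB

universe u

variable [HC]


theorem ram_N {ϖ : 𝓞 K} {ℓ q : ℕ} (h : PD ϖ ℓ q) {F N : Type u} [Field F] [NumberField F]
    [Algebra K F] [Field N] [NumberField N] [Algebra K N] [Algebra F N] [IsScalarTower K F N]
    [DecidableEq N] [IsGalois F N]
    (hun : ∀ v : HeightOneSpectrum (𝓞 F), v.valuation F (ℓ : F) < 1 → od v (ℓ : F) = 1)
    {P₀ : Pt N} (hP₀ : Full F ϖ P₀) (w : HeightOneSpectrum (𝓞 N))
    (hw : w.valuation N (algebraMap K N (ϖ : K)) < 1) :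
    od w (tc P₀) = 1 ∧ od w (ℓ : N) = (q : ℤ) - 1 ∧ ∀ σ : Gal(N/F), gpl σ w = w := by
  have hv : (w.under (𝓞 F)).valuation F (algebraMap K F (ϖ : K)) < 1 := by
    rw [← val_map_lt, ← IsScalarTower.algebraMap_apply K F N]
    exact hw
  have hvl : (w.under (𝓞 F)).valuation F (ℓ : F) < 1 := (pd_val_ell_iff h).2 (Or.inl hv)
  have h1 := hun _ hvl
  have h2 := od_of_un h hv h1
  obtain ⟨-, h3, -⟩ := ram h.prime hP₀.ord hP₀.gen (w.under (𝓞 F)) h2 (h.bad_od h2)
  obtain ⟨he, -, ht, -, hg⟩ := h3 w rfl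
  have hc := Full.card h hP₀
  refine ⟨ht, ?_, hg⟩
  have h4 := od_map (k := F) w (ℓ : F)
  rw [map_natCast, h1, he, mul_one] at h4
  rw [h4, ← hc]
  push_cast
  ring

section
variable {F N N₂ L : Type u} [Field F] [NumberField F] [Algebra K F] [Field N] [NumberField N]
  [Algebra K N] [Field N₂] [NumberField N₂] [Algebra K N₂] [Field L] [NumberField L] [Algebra K L]
  [Algebra F N] [Algebra F N₂] [Algebra F L] [Algebra N L] [Algebra N₂ L]
  [IsScalarTower K F N] [IsScalarTower K F N₂] [IsScalarTower K F L] [IsScalarTower K N L]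
  [IsScalarTower K N₂ L] [IsScalarTower F N L] [IsScalarTower F N₂ L]
  [DecidableEq F] [DecidableEq N] [DecidableEq N₂] [DecidableEq L]
  [IsGalois F N] [IsGalois F N₂] [IsGalois F L]
  {ϖ : 𝓞 K} {ℓ q : ℕ} {P : Pt F} {P₀ : Pt N} {P₂ : Pt N₂} {ζ : L} {Q : Pt L}
  (D : TD ϖ ℓ q P P₀ P₂ ζ Q)
include D


end

/-- Nakayama for an additive group with an action of a commutative ring -/
private theorem tpc_nak {R : Type*} [CommRing R] {M : Type*} [AddCommGroup M]
    (f : R →+* AddMonoid.End M) (hfg : AddGroup.FG M) (b : R)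
    (hb : ∀ P : M, ∃ P' : M, f b P' = P) :
    ∃ r : R, b ∣ r - 1 ∧ ∀ P : M, f r P = 0 := by
  letI : Module R M := Module.compHom M f
  have hsm : ∀ (r : R) (P : M), r • P = f r P := fun r P => rfl
  obtain ⟨S, hS⟩ := AddGroup.fg_iff.1 hfg
  have hfgR : (⊤ : Submodule R M).FG := by
    refine ⟨hS.2.toFinset, ?_⟩
    rw [Set.Finite.coe_toFinset, eq_top_iff]
    intro P _
    have hP : P ∈ AddSubgroup.closure S := by
      rw [hS.1]
      exact AddSubgroup.mem_top P
    have hle : AddSubgroup.closure S ≤ (Submodule.span R S).toAddSubgroup :=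
      (AddSubgroup.closure_le _).2 Submodule.subset_span
    exact hle hP
  have hin : (⊤ : Submodule R M) ≤ Ideal.span {b} • (⊤ : Submodule R M) := by
    intro P _
    obtain ⟨P', hP'⟩ := hb P
    rw [← hP', ← hsm]
    exact Submodule.smul_mem_smul (Ideal.mem_span_singleton_self b) Submodule.mem_top
  obtain ⟨r, hr1, hr2⟩ :=
    Submodule.exists_sub_one_mem_and_smul_eq_zero_of_fg_of_le_smul (Ideal.span {b}) ⊤ hfgR hin
  refine ⟨r, Ideal.mem_span_singleton.1 hr1, fun P => ?_⟩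
  rw [← hsm]
  exact hr2 P Submodule.mem_top

/-- a finitely generated abelian group killed by a nonzero integer is finite -/
private theorem tpc_fin {M : Type*} [AddCommGroup M] (hfg : AddGroup.FG M) (n : ℕ) (hn : n ≠ 0)
    (h : ∀ P : M, n • P = 0) : Finite M := by
  have h1 : Module.Finite ℤ M := Module.Finite.iff_addGroup_fg.2 hfg
  refine Module.finite_of_fg_torsion M ?_
  intro P
  refine ⟨⟨(n : ℤ), mem_nonZeroDivisors_of_ne_zero (Nat.cast_ne_zero.2 hn)⟩, ?_⟩
  show (n : ℤ) • P = 0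
  rw [natCast_zsmul, h]

/-- Mordell-Weil for the points over `F` -/
private theorem tpc_fg (F : Type u) [Field F] [NumberField F] [Algebra K F] [DecidableEq F] :
    AddGroup.FG (Pt F) := by
  have hE : (Affine.baseChange (E K) F).IsElliptic := by
    refine (WeierstrassCurve.isElliptic_iff _).2 ?_
    have h27 : (Affine.baseChange (E K) F).Δ = -16 * (4 * cA F ^ 3 + 27 * cB F ^ 2) := by
      simp [WeierstrassCurve.Δ, WeierstrassCurve.b₂, WeierstrassCurve.b₄, WeierstrassCurve.b₆,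
        WeierstrassCurve.b₈, E]
      ring
    rw [h27]
    have h2 : (2 : F) ≠ 0 := two_ne
    refine IsUnit.mk0 _ (mul_ne_zero ?_ dsc_ne)
    intro h0
    apply pow_ne_zero 4 h2
    linear_combination -h0
  exact Pool.Agent.Lib.MP_17a322_nt.VJ.mordell_weil (Affine.baseChange (E K) F)

section
variable {ϖ : 𝓞 K} {ℓ q : ℕ} (h : PD ϖ ℓ q) {F : Type u} [Field F] [NumberField F] [Algebra K F]
  [DecidableEq F]
include h


theorem finite_of_div (hd : ∀ P : Pt F, ∃ P' : Pt F, sm F (cj ϖ) P' = P) : Finite (Pt F) := by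
  have hfg : AddGroup.FG (Pt F) := tpc_fg F
  obtain ⟨r, hr1, hr2⟩ := tpc_nak (sm F) hfg (cj ϖ) hd
  have hr0 : r ≠ 0 := by
    intro h0
    rw [h0, zero_sub] at hr1
    exact (pd_cj h).prime.not_unit (isUnit_of_dvd_unit hr1 isUnit_one.neg)
  have hcr : cj r ≠ 0 := by
    intro h0
    apply hr0
    rw [← cj_cj r, h0, map_zero]
  have hn : Ideal.absNorm (Ideal.span {r}) ≠ 0 := by
    intro h0
    have h1 := mul_cj r
    rw [h0, Nat.cast_zero] at h1
    rcases mul_eq_zero.1 h1 with h2 | h2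
    · exact hr0 h2
    · exact hcr h2
  refine tpc_fin hfg _ hn ?_
  intro P
  rw [← sm_nat, ← mul_cj r, mul_comm, map_mul]
  show sm F (cj r) (sm F r P) = 0
  rw [hr2, map_zero]


end

end Pool.Agent.Lib.MP_1a91b9_nuX.DX
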